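import Pool.Agent.W360.MQ.Stm

/-! MQ-LIP: from `C^1` maps to Lipschitz maps. -/

set_option autoImplicit false

namespace Pool.Agent.W918.MQ

open MeasureTheory Set Filter Topology Metric
open scoped Convolution
open Pool.Agent.W360.MQ
open Pool.Agent.W488.IW (dz dzb)

abbrev LL : Type := ℂ →L[ℝ] ℂ

/-- the mollifiers -/
noncomputable def bmp (n : ℕ) : ContDiffBump (0 : ℂ) where
  rIn := 1 / (2 * ((n : ℝ) + 1))
  rOut := 1 / ((n : ℝ) + 1)
  rIn_pos := by positivity
  rIn_lt_rOut := by
    apply one_div_lt_one_div_of_lt (by positivity)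
    have : (0 : ℝ) ≤ n := Nat.cast_nonneg n
    linarith

noncomputable def ro (n : ℕ) : ℂ → ℝ := (bmp n).normed volume

theorem ro_cont (n : ℕ) : Continuous (ro n) := (bmp n).continuous_normed

theorem ro_nonneg (n : ℕ) (t : ℂ) : 0 ≤ ro n t := (bmp n).nonneg_normed t

theorem ro_cs (n : ℕ) : HasCompactSupport (ro n) := (bmp n).hasCompactSupport_normed

theorem ro_int (n : ℕ) : ∫ t, ro n t = 1 := (bmp n).integral_normed

theorem ro_integrable (n : ℕ) : Integrable (ro n) := (bmp n).integrable_normed

theorem ro_zero (n : ℕ) (t : ℂ) (ht : 1 ≤ ‖t‖) : ro n t = 0 := by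
  have h : t ∉ Function.support (ro n) := by
    unfold ro
    rw [(bmp n).support_normed_eq, mem_ball, dist_zero_right]
    push Not
    refine le_trans ?_ ht
    change 1 / ((n : ℝ) + 1) ≤ 1
    rw [div_le_one (by positivity)]
    have : (0 : ℝ) ≤ n := Nat.cast_nonneg n
    linarith
  simpa using h

/-- the mollified function -/
noncomputable def mol (n : ℕ) (f : ℂ → ℂ) : ℂ → ℂ :=
  (ro n) ⋆[ContinuousLinearMap.lsmul ℝ ℝ, volume] f

theorem mol_eq (n : ℕ) (f : ℂ → ℂ) (x : ℂ) : mol n f x = ∫ t, ro n t • f (x - t) := rfl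

variable {f : ℂ → ℂ} {K : NNReal}

theorem fderiv_bd (hf : LipschitzWith K f) (x : ℂ) : ‖fderiv ℝ f x‖ ≤ K :=
  norm_fderiv_le_of_lipschitz ℝ hf

theorem fderiv_meas : AEStronglyMeasurable (fderiv ℝ f) volume :=
  (measurable_fderiv ℝ f).aestronglyMeasurable

theorem sub_qmp (x : ℂ) : Measure.QuasiMeasurePreserving (fun t : ℂ => x - t) volume volume :=
  (Measure.measurePreserving_sub_left volume x).quasiMeasurePreserving

theorem mol_hasFDerivAt (hf : LipschitzWith K f) (n : ℕ) (x : ℂ) :
    HasFDerivAt (mol n f) (∫ t, ro n t • fderiv ℝ f (x - t)) x := by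
  have hc := hf.continuous
  refine (hasFDerivAt_integral_of_dominated_loc_of_lip (𝕜 := ℝ) (μ := volume)
    (F := fun x t => ro n t • f (x - t)) (F' := fun t => ro n t • fderiv ℝ f (x - t))
    (x₀ := x) (bound := fun t => ro n t * K) (s := univ) univ_mem ?_ ?_ ?_ ?_ ?_ ?_).2
  · refine Eventually.of_forall fun y => Continuous.aestronglyMeasurable ?_
    exact (ro_cont n).smul (hc.comp (continuous_const.sub continuous_id))
  · refine Continuous.integrable_of_hasCompactSupport ?_ ?_
    · exact (ro_cont n).smul (hc.comp (continuous_const.sub continuous_id))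
    · exact (ro_cs n).smul_right
  · refine (ro_cont n).aestronglyMeasurable.smul ?_
    exact fderiv_meas.comp_quasiMeasurePreserving (sub_qmp x)
  · refine Eventually.of_forall fun t => ?_
    refine LipschitzWith.lipschitzOnWith ?_
    refine LipschitzWith.of_dist_le_mul fun y z => ?_
    rw [dist_eq_norm, ← smul_sub, norm_smul, Real.norm_of_nonneg (ro_nonneg n t)]
    have h1 := hf.dist_le_mul (y - t) (z - t)
    rw [dist_eq_norm, dist_eq_norm, sub_sub_sub_cancel_right] at h1
    rw [Real.coe_nnabs, abs_of_nonneg (mul_nonneg (ro_nonneg n t) K.coe_nonneg), dist_eq_norm, mul_assoc]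
    exact mul_le_mul_of_nonneg_left h1 (ro_nonneg n t)
  · exact (ro_integrable n).mul_const _
  · have h1 : ∀ᵐ t : ℂ, DifferentiableAt ℝ f (x - t) :=
      (sub_qmp x).ae hf.ae_differentiableAt
    filter_upwards [h1] with t ht
    have h2 : HasFDerivAt (fun y : ℂ => f (y - t)) (fderiv ℝ f (x - t)) x := by
      have := ht.hasFDerivAt.comp x ((hasFDerivAt_id x).sub_const t)
      simpa [Function.comp_def] using this
    exact h2.const_smul (ro n t)

theorem mol_fderiv (hf : LipschitzWith K f) (n : ℕ) (x : ℂ) :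
    fderiv ℝ (mol n f) x = ∫ t, ro n t • fderiv ℝ f (x - t) :=
  (mol_hasFDerivAt hf n x).fderiv

theorem mol_fderiv_bd (hf : LipschitzWith K f) (n : ℕ) (x : ℂ) :
    ‖fderiv ℝ (mol n f) x‖ ≤ K := by
  rw [mol_fderiv hf]
  have h1 : ∀ᵐ t : ℂ, ‖ro n t • fderiv ℝ f (x - t)‖ ≤ ro n t * K := by
    refine Eventually.of_forall fun t => ?_
    rw [norm_smul, Real.norm_of_nonneg (ro_nonneg n t)]
    exact mul_le_mul_of_nonneg_left (fderiv_bd hf _) (ro_nonneg n t)
  refine (norm_integral_le_of_norm_le ((ro_integrable n).mul_const _) h1).trans ?_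
  rw [integral_mul_const, ro_int, one_mul]

theorem mol_fderiv_zero (hf : LipschitzWith K f) {R : ℝ} (hR : tsupport f ⊆ closedBall 0 R)
    (n : ℕ) (x : ℂ) (hx : R + 1 < ‖x‖) : fderiv ℝ (mol n f) x = 0 := by
  rw [mol_fderiv hf]
  have : ∀ t, ro n t • fderiv ℝ f (x - t) = 0 := by
    intro t
    rcases le_or_gt 1 ‖t‖ with h | h
    · rw [ro_zero n t h, zero_smul]
    · have h1 : x - t ∉ tsupport f := by
        intro h2
        have h3 := hR h2
        rw [mem_closedBall, dist_zero_right] at h3
        have h4 := norm_sub_norm_le x t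
        linarith
      rw [show fderiv ℝ f (x - t) = 0 from ?_, smul_zero]
      by_contra h2
      exact h1 (support_fderiv_subset ℝ h2)
  simp [this]

theorem mol_cd (hf : LipschitzWith K f) (n : ℕ) : ContDiff ℝ 1 (mol n f) :=
  (ro_cs n).contDiff_convolution_left _ (bmp n).contDiff_normed hf.continuous.locallyIntegrable

theorem mol_cs (hc : HasCompactSupport f) (n : ℕ) : HasCompactSupport (mol n f) :=
  (ro_cs n).convolution _ hc

theorem mol_tendsto (hf : LipschitzWith K f) :
    ∀ᵐ x : ℂ, Tendsto (fun n => fderiv ℝ (mol n f) x) atTop (𝓝 (fderiv ℝ f x)) := by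
  have hli : LocallyIntegrable (fderiv ℝ f) (volume : Measure ℂ) := by
    have : MemLp (fderiv ℝ f) ⊤ (volume : Measure ℂ) :=
      memLp_top_of_bound fderiv_meas K (Eventually.of_forall (fderiv_bd hf))
    exact this.locallyIntegrable le_top
  have h1 : Tendsto (fun n => (bmp n).rOut) atTop (𝓝 0) := tendsto_one_div_add_atTop_nhds_zero_nat
  have h2 : ∀ᶠ n in atTop, (bmp n).rOut ≤ 2 * (bmp n).rIn := by
    refine Eventually.of_forall fun n => ?_
    change 1 / ((n : ℝ) + 1) ≤ 2 * (1 / (2 * ((n : ℝ) + 1)))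
    apply le_of_eq
    field_simp
  filter_upwards [ContDiffBump.ae_convolution_tendsto_right_of_locallyIntegrable h1 h2 hli]
    with x hx
  refine hx.congr fun n => ?_
  rw [mol_fderiv hf]
  rfl

/-- the complex derivatives as functions of the real derivative -/
noncomputable def DD (A : LL) : ℂ × ℂ :=
  (1 / 2 * (A 1 - Complex.I * A Complex.I), 1 / 2 * (A 1 + Complex.I * A Complex.I))

theorem DD_cont : Continuous DD := by
  unfold DD
  have h1 : Continuous (fun A : LL => A 1) := continuous_eval_const (1 : ℂ)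
  have h2 : Continuous (fun A : LL => A Complex.I) := continuous_eval_const Complex.I
  fun_prop

theorem DD_zero : DD 0 = 0 := by
  unfold DD; simp

theorem main (h : S_C1) : S_LIP := by
  intro w hw hQ F0 f ⟨K, hf⟩ hcs
  -- the integrand as a function of the derivative
  set G : LL → ℝ := fun A => w (F0 + DD A) - w F0 with hG
  have hGc : Continuous G := by
    have := DD_cont
    fun_prop
  have hG0 : G 0 = 0 := by simp [hG, DD_zero]
  have h1 : ∀ n, 0 ≤ ∫ z : ℂ, G (fderiv ℝ (mol n f) z) := fun n =>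
    h w hw hQ F0 (mol n f) (mol_cd hf n) (mol_cs hcs n)
  obtain ⟨R, hR⟩ := hcs.isBounded.subset_closedBall (0 : ℂ)
  obtain ⟨M, hM⟩ := (isCompact_closedBall (0 : LL) K).exists_bound_of_continuousOn
    hGc.continuousOn
  have h2 : Tendsto (fun n => ∫ z : ℂ, G (fderiv ℝ (mol n f) z)) atTop
      (𝓝 (∫ z : ℂ, G (fderiv ℝ f z))) := by
    refine tendsto_integral_of_dominated_convergence
      ((closedBall (0 : ℂ) (R + 1)).indicator fun _ => M) ?_ ?_ ?_ ?_
    · intro n
      exact (hGc.comp ((mol_cd hf n).continuous_fderiv one_ne_zero)).aestronglyMeasurable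
    · exact (integrable_indicator_iff measurableSet_closedBall).2
        (integrableOn_const (measure_closedBall_lt_top).ne)
    · intro n
      refine Eventually.of_forall fun x => ?_
      by_cases hx : x ∈ closedBall (0 : ℂ) (R + 1)
      · rw [indicator_of_mem hx]
        exact hM _ (by
          rw [mem_closedBall, dist_zero_right]
          exact mol_fderiv_bd hf n x)
      · rw [indicator_of_notMem hx]
        rw [mem_closedBall, dist_zero_right] at hx
        rw [mol_fderiv_zero hf hR n x (not_le.1 hx), hG0, norm_zero]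
    · filter_upwards [mol_tendsto hf] with x hx
      exact (hGc.tendsto _).comp hx
  exact ge_of_tendsto' h2 h1

end Pool.Agent.W918.MQ
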